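import Pool.Agent.R311.BS.WF

/-!
# Moments of zeta on the critical line restricted to arbitrary Bohr sets

For every integer `k ≥ 2`, every finite family of real frequencies `α_1, …, α_J`, every width
`δ > 0` and every centre `t₀`, the integral of `|ζ(1/2 + it)|^k` over the points `t` of the window
`[T, T + H]` with `‖α_j (t - t₀)‖ < δ` for all `j` (distance to the nearest integer) is at least
`c H (log T)^(k²/4)`, the conjectured order of the full integral, with a constant `c > 0` which
depends only on `k`, the `α_j` and `δ`: uniformly in the centre `t₀` and in all windows with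
`T^(1 - η) ≤ H ≤ T`. The frequencies may be resonant with the primes, for example
`α = (log 2) / (2 π)`, so that `2^(it)` is prescribed up to a small error, or linearly dependent
over the rational numbers.

The theorem is proved in the starting files `Pool/Agent/R311/BS`; no starting result states it.
-/

set_option autoImplicit false

namespace Pool.Agent.Results.MP_91b7ff_nt.BohrSets

open MeasureTheory Filter

/-- **Moments of zeta in Bohr sets.** Unconditional lower bounds of the conjectured order for the
integral of `|ζ(1/2 + it)|^k` over all Bohr sets, uniformly in the centre, in all windows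
`[T, T + H]` with `T^(1 - η) ≤ H ≤ T`. -/
theorem result (k : ℕ) (hk : 2 ≤ k) {J : ℕ} (α : Fin J → ℝ) (δ : ℝ) (hδ : 0 < δ) :
    ∃ c : ℝ, 0 < c ∧ ∃ η : ℝ, 0 < η ∧ ∀ᶠ T : ℝ in atTop, ∀ H : ℝ, T ^ (1 - η) ≤ H → H ≤ T →
      ∀ t₀ : ℝ, c * H * Real.log T ^ ((k : ℝ) ^ 2 / 4) ≤
        ∫ t in {t : ℝ | t ∈ Set.Icc T (T + H) ∧
            ∀ j, |α j * (t - t₀) - round (α j * (t - t₀))| < δ},
          ‖riemannZeta (1 / 2 + (t : ℂ) * Complex.I)‖ ^ k :=
  Pool.Agent.R311.BS.main k hk α δ hδ

end Pool.Agent.Results.MP_91b7ff_nt.BohrSets
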